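import Pool.Agent.Y796.BU.A

/-!
# Diagram subgroups are undistorted

For `R' ⊆ R` and a walk `δ` from `w` to `p w' q` over `R`, the homomorphism `D(R', w') → D(R, w)`,
`g ↦ δ (p + g + q) δ⁻¹`, is injective and, if both groups are finitely generated, a
quasi-isometric embedding.
-/

set_option autoImplicit false

namespace Pool.Agent.Y796.BU

open Pool.Agent.H599R3

variable {A : Type} {R' R : Set (List A × List A)}

theorem walk_mono (h : R' ⊆ R) {a b : List A} {l : List (St A)} (hl : Walk R' a b l) :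
    Walk R a b l := by
  induction l generalizing a with
  | nil => exact hl
  | cons s l ih => exact ⟨h hl.1, hl.2.1, ih hl.2.2⟩

theorem path_ctx (h : R' ⊆ R) (p q : List A) {l : List (St A)} (hl : pathP R' l) :
    pathP R (l.map (ctx p q)) := by
  obtain ⟨a, b, hab⟩ := pathP_iff.1 hl
  exact (walk_mono h (hab.ctx p q)).path

theorem mv_ctx (h : R' ⊆ R) (p q : List A) {l m : List (St A)} (hm : mv R' l m) :
    mv R (l.map (ctx p q)) (m.map (ctx p q)) := by
  refine ⟨path_ctx h p q hm.1, path_ctx h p q hm.2.1, ?_⟩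
  rcases hm.2.2 with ⟨a, b, x, u, v, y, c, rfl, rfl⟩ | ⟨a, b, x, u₁, v₁, y, u₂, v₂, z, rfl, rfl⟩
  · left
    exact ⟨a.map (ctx p q), b.map (ctx p q), p ++ x, u, v, y ++ q, c, by simp, by simp [ctx]⟩
  · right
    exact ⟨a.map (ctx p q), b.map (ctx p q), p ++ x, u₁, v₁, y, u₂, v₂, z ++ q,
      by simp [ctx], by simp [ctx]⟩

/-- adding contexts -/
def emb (h : R' ⊆ R) (p q w' : List A) : D R' w' →* D R (p ++ w' ++ q) where
  toFun := Quot.map (fun l => ⟨l.1.map (ctx p q), walk_mono h (l.2.ctx p q)⟩)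
    (fun _ _ hm => mv_ctx h p q hm)
  map_one' := rfl
  map_mul' := by
    intro a b
    induction a using Quot.ind with
    | mk a =>
    induction b using Quot.ind with
    | mk b =>
    have h1 : ∀ (x y : {l : List (St A) // Walk R (p ++ w' ++ q) (p ++ w' ++ q) l}), x.1 = y.1 →
        (Quot.mk _ x : D R (p ++ w' ++ q)) = Quot.mk _ y := by
      intro x y hxy
      rw [Subtype.ext hxy]
    exact h1 _ _ (List.map_append)

theorem emb_cls (h : R' ⊆ R) (p q w' : List A) {l : List (St A)} (hl : Walk R' w' w' l) :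
    emb h p q w' (cls R' w' l) = cls R (p ++ w' ++ q) (l.map (ctx p q)) := by
  rw [cls_eq hl, cls_eq (walk_mono h (hl.ctx p q))]
  rfl

theorem ctx_inj {p q : List A} {s t : St A} (h : ctx p q s = ctx p q t) : s = t := by
  obtain ⟨x, r, y, b⟩ := s
  obtain ⟨x', r', y', b'⟩ := t
  simp only [ctx, Prod.mk.injEq, List.append_cancel_left_eq, List.append_cancel_right_eq] at h
  obtain ⟨rfl, rfl, rfl, rfl⟩ := h
  rfl

theorem map_split {p q : List A} {l a b : List (St A)} {s t : St A}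
    (h : l.map (ctx p q) = a ++ [s, t] ++ b) :
    ∃ (a' b' : List (St A)) (s' t' : St A), l = a' ++ [s', t'] ++ b' ∧ a = a'.map (ctx p q) ∧
      b = b'.map (ctx p q) ∧ s = ctx p q s' ∧ t = ctx p q t' := by
  obtain ⟨l1, l2, rfl, h1, h2⟩ := List.map_eq_append_iff.1 h
  obtain ⟨l3, l4, rfl, h3, h4⟩ := List.map_eq_append_iff.1 h1
  obtain ⟨s', l5, rfl, h5, h6⟩ := List.map_eq_cons_iff.1 h4
  obtain ⟨t', l6, rfl, h7, h8⟩ := List.map_eq_cons_iff.1 h6
  obtain rfl := List.map_eq_nil_iff.1 h8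
  exact ⟨l3, l2, s', t', rfl, h3.symm, h2.symm, h5.symm, h7.symm⟩

theorem flip_ctx {p q : List A} {l m : List (St A)} (h : Flip (l.map (ctx p q)) m) :
    ∃ m', m = m'.map (ctx p q) ∧ Flip l m' := by
  obtain ⟨a, b, x, y, z, r₁, r₂, b₁, b₂, h1, rfl⟩ := h
  obtain ⟨a', b', ⟨x1, r1, y1, c1⟩, ⟨x2, r2, z2, c2⟩, rfl, rfl, rfl, hs, ht⟩ := map_split h1
  simp only [ctx, Prod.mk.injEq] at hs ht
  obtain ⟨rfl, rfl, h2, rfl⟩ := hs
  obtain ⟨h3, rfl, rfl, rfl⟩ := ht
  have h4 : x2 = x1 ++ out r₁ b₁ ++ y := by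
    apply List.append_cancel_left (as := p)
    rw [← h3]; simp
  have h5 : y1 = y ++ inn r₂ b₂ ++ z2 := by
    apply List.append_cancel_right (bs := q)
    rw [← h2]; simp
  subst h4 h5
  refine ⟨a' ++ [(x1 ++ inn r₁ b₁ ++ y, r₂, z2, b₂), (x1, r₁, y ++ out r₂ b₂ ++ z2, b₁)] ++ b',
    by simp [ctx], a', b', x1, y, z2, r₁, r₂, b₁, b₂, rfl, rfl⟩

theorem flip_ctx' {p q : List A} {l m : List (St A)} (h : Flip l (m.map (ctx p q))) :
    ∃ l', l = l'.map (ctx p q) ∧ Flip l' m := by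
  obtain ⟨a, b, x, y, z, r₁, r₂, b₁, b₂, rfl, h1⟩ := h
  obtain ⟨a', b', ⟨x2, r2, z2, c2⟩, ⟨x1, r1, y1, c1⟩, rfl, rfl, rfl, ht, hs⟩ := map_split h1
  simp only [ctx, Prod.mk.injEq] at hs ht
  obtain ⟨rfl, rfl, h2, rfl⟩ := hs
  obtain ⟨h3, rfl, rfl, rfl⟩ := ht
  have h4 : x2 = x1 ++ inn r₁ b₁ ++ y := by
    apply List.append_cancel_left (as := p)
    rw [← h3]; simp
  have h5 : y1 = y ++ out r₂ b₂ ++ z2 := by
    apply List.append_cancel_right (bs := q)
    rw [← h2]; simp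
  subst h4 h5
  refine ⟨a' ++ [(x1, r₁, y ++ inn r₂ b₂ ++ z2, b₁), (x1 ++ out r₁ b₁ ++ y, r₂, z2, b₂)] ++ b',
    by simp [ctx], a', b', x1, y, z2, r₁, r₂, b₁, b₂, rfl, rfl⟩

theorem same_ctx_aux {p q : List A} {L M : List (St A)} (h : Same L M) :
    (∀ l, L = l.map (ctx p q) → ∃ m, M = m.map (ctx p q) ∧ Same l m) ∧
    (∀ m, M = m.map (ctx p q) → ∃ l, L = l.map (ctx p q) ∧ Same l m) := by
  unfold Same at h
  induction h with
  | rel x y h =>
    refine ⟨?_, ?_⟩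
    · rintro l rfl
      obtain ⟨m, hm, hf⟩ := flip_ctx h
      exact ⟨m, hm, .rel _ _ hf⟩
    · rintro m rfl
      obtain ⟨l, hl, hf⟩ := flip_ctx' h
      exact ⟨l, hl, .rel _ _ hf⟩
  | refl x => exact ⟨fun l hl => ⟨l, hl, Same.refl l⟩, fun l hl => ⟨l, hl, Same.refl l⟩⟩
  | symm x y _ ih =>
    refine ⟨fun l hl => ?_, fun l hl => ?_⟩
    · obtain ⟨m, hm, hs⟩ := ih.2 l hl
      exact ⟨m, hm, hs.symm⟩
    · obtain ⟨m, hm, hs⟩ := ih.1 l hl
      exact ⟨m, hm, hs.symm⟩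
  | trans x y z _ _ ih1 ih2 =>
    refine ⟨fun l hl => ?_, fun l hl => ?_⟩
    · obtain ⟨m, hm, hs⟩ := ih1.1 l hl
      obtain ⟨n, hn, hs'⟩ := ih2.1 m hm
      exact ⟨n, hn, hs.trans hs'⟩
    · obtain ⟨m, hm, hs⟩ := ih2.2 l hl
      obtain ⟨n, hn, hs'⟩ := ih1.2 m hm
      exact ⟨n, hn, hs'.trans hs⟩

theorem reduced_ctx (p q : List A) {l : List (St A)} (h : Reduced l) :
    Reduced (l.map (ctx p q)) := by
  intro M hM hd
  obtain ⟨m, rfl, hs⟩ := (same_ctx_aux hM).1 l rfl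
  obtain ⟨a, b, s, h1⟩ := hd
  obtain ⟨a', b', s', t', rfl, rfl, rfl, rfl, h2⟩ := map_split h1
  rw [bar_ctx] at h2
  have h3 := ctx_inj h2
  exact h _ hs ⟨a', b', s', by rw [h3]⟩

theorem numCells_emb (hR : ∀ r ∈ R, r.1 ≠ [] ∧ r.2 ≠ []) (h : R' ⊆ R) (p q w' : List A)
    (g : D R' w') : numCells (emb h p q w' g) = numCells g := by
  have hR' : ∀ r ∈ R', r.1 ≠ [] ∧ r.2 ≠ [] := fun r hr => hR r (h hr)
  obtain ⟨z, z1, z2, z3, -⟩ := exists_unique_reduced hR' g
  rw [← z3, emb_cls h p q w' z1, numCells_eq hR (walk_mono h (z1.ctx p q)) (reduced_ctx p q z2),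
    numCells_eq hR' z1 z2, List.length_map]

theorem eq_one_of_numCells (hR : ∀ r ∈ R, r.1 ≠ [] ∧ r.2 ≠ []) {w : List A} {g : D R w}
    (h : numCells g = 0) : g = 1 := by
  obtain ⟨z, z1, z2, z3, -⟩ := exists_unique_reduced hR g
  rw [← z3, numCells_eq hR z1 z2] at h
  rw [← z3, List.eq_nil_of_length_eq_zero h, cls_nil]

/-- change of the base word -/
def tr {w W : List A} (δ : List (St A)) (hδ : Walk R w W δ) : D R W →* D R w where
  toFun := Quot.map (fun l => ⟨δ ++ l.1 ++ rv δ, (hδ.append l.2).append hδ.rv⟩)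
    (fun a b hm => mv_context hm δ (rv δ) ((hδ.append a.2).append hδ.rv).path
      ((hδ.append b.2).append hδ.rv).path)
  map_one' := by
    have h1 : Walk R w w (δ ++ [] ++ rv δ) := (hδ.append (walk_refl W)).append hδ.rv
    have key : cls R w (δ ++ [] ++ rv δ) = 1 := by
      rw [← cls_nil]
      have := cls_cancel' hδ (w := w) (x := []) (y := []) rfl rfl
      simpa using this
    exact (cls_eq h1).symm.trans key
  map_mul' := by
    intro a b
    induction a using Quot.ind with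
    | mk a =>
    induction b using Quot.ind with
    | mk b =>
    have h1 : ∀ l : {l : List (St A) // Walk R W W l}, Walk R w w (δ ++ l.1 ++ rv δ) := fun l =>
      (hδ.append l.2).append hδ.rv
    have h2 : Walk R w w (δ ++ (a.1 ++ b.1) ++ rv δ) := (hδ.append (a.2.append b.2)).append hδ.rv
    have key : cls R w (δ ++ (a.1 ++ b.1) ++ rv δ) =
        cls R w (δ ++ a.1 ++ rv δ) * cls R w (δ ++ b.1 ++ rv δ) := by
      rw [cls_mul (h1 a) (h1 b)]
      have := cls_cancel hδ (w := w) (x := δ ++ a.1) (y := b.1 ++ rv δ) (hδ.append a.2)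
        (b.2.append hδ.rv)
      simp only [List.append_assoc] at this ⊢
      exact this.symm
    rw [cls_eq h2, cls_eq (h1 a), cls_eq (h1 b)] at key
    exact key

theorem tr_cls {w W : List A} (δ : List (St A)) (hδ : Walk R w W δ) {l : List (St A)}
    (hl : Walk R W W l) : tr δ hδ (cls R W l) = cls R w (δ ++ l ++ rv δ) := by
  rw [cls_eq hl, cls_eq ((hδ.append hl).append hδ.rv)]
  rfl

theorem tr_tr {w W : List A} (δ : List (St A)) (hδ : Walk R w W δ) (g : D R W) :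
    tr (rv δ) hδ.rv (tr δ hδ g) = g := by
  induction g using D_ind with
  | h l hl =>
    rw [tr_cls δ hδ hl, tr_cls (rv δ) hδ.rv ((hδ.append hl).append hδ.rv), rv_rv]
    have h1 := cls_cancel hδ (w := W) (x := []) (y := l ++ rv δ ++ δ) rfl
      ((hl.append hδ.rv).append hδ)
    have h2 := cls_cancel hδ (w := W) (x := l) (y := []) hl rfl
    simp only [List.nil_append, List.append_nil, List.append_assoc] at h1 h2 ⊢
    rw [h1, h2]

theorem numCells_tr (hR : ∀ r ∈ R, r.1 ≠ [] ∧ r.2 ≠ []) {w W : List A} (δ : List (St A))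
    (hδ : Walk R w W δ) (g : D R W) : numCells (tr δ hδ g) ≤ numCells g + 2 * δ.length := by
  obtain ⟨z, z1, z2, z3, -⟩ := exists_min hR g
  rw [← z3, ← z2, tr_cls δ hδ z1]
  refine (numCells_le hR ((hδ.append z1).append hδ.rv)).trans ?_
  simp [rv]
  omega

theorem numCells_tr' (hR : ∀ r ∈ R, r.1 ≠ [] ∧ r.2 ≠ []) {w W : List A} (δ : List (St A))
    (hδ : Walk R w W δ) (g : D R W) : numCells g ≤ numCells (tr δ hδ g) + 2 * δ.length := by
  have h1 := numCells_tr hR (rv δ) hδ.rv (tr δ hδ g)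
  rw [tr_tr] at h1
  have h2 : (rv δ).length = δ.length := by simp [rv]
  rw [h2] at h1
  exact h1

end Pool.Agent.Y796.BU
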